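import Pool.Agent.TH831.DR

/-!
# Integral and pure away from `l`, but not de Rham at any place above `l`
-/

set_option autoImplicit false

open NumberField TensorProduct Pool.Agent.TH831

namespace Pool.Agent.Results.MP_395897_nt.HalfTwist

/-- For every number field `F` and every prime `l` there is a continuous one-dimensional (hence
irreducible) `l`-adic representation `ρ` of the absolute Galois group of `F` which is unramified at
every finite place not dividing `l`, all of whose geometric Frobenius eigenvalues there are
algebraic integers all of whose complex conjugates have absolute value `q ^ (1 / 2)`, and such that,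
for every embedding `ι` of the algebraic closure of `F` in the algebraic closure of `ℚ_l`, hence for
every place `v` of `F` above `l`, the space `D_dR(V)` is zero and `ρ` is not de Rham at `v`. -/
theorem result (F : Type*) [Field F] [NumberField F] (l : ℕ) [Fact l.Prime] :
    ∃ ρ : Gal(AlgebraicClosure F/F) →* GL (Fin 1) (PadicAlgCl l),
      Continuous ρ ∧ UnramifiedOutside ρ ∧ FrobIntegralPure ρ 1 ∧
        ∀ ι : AlgebraicClosure F →+* PadicAlgCl l, DRVanishes ρ ι ∧ ¬ IsDeRhamAt ρ ι := by
  obtain ⟨ψ, hψ, hcont, N, hN, hN2⟩ := exists_psi l
  exact ⟨scalarRep (halfChar F ψ), continuous_scalarRep (continuous_halfChar hcont),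
    halfChar_unramified, halfChar_pure hN hN2,
    fun ι => ⟨halfChar_dR hψ ι, halfChar_not_deRham hψ ι⟩⟩

end Pool.Agent.Results.MP_395897_nt.HalfTwist
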